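import Pool.Agent.P8H87.FM.OneA

/-!
# Project FM, package ONE: the one point function
-/

set_option autoImplicit false

open Complex Filter Topology MeasureTheory

namespace Pool.Agent.P8H87.FM

open Pool.Agent.P8H98.FM Pool.Agent.R923.SE

noncomputable section

/-- the determinant of a radial symbol -/
theorem DD_radial (h : S_ONB) (n : ℕ) (p : Om) (hp : nn2 p ≠ 0) (f : ℝ → ℂ)
    (hf : IntegrableOn f (Set.Icc 0 1) volume) (hm : Measurable f) :
    DD n (fun v => f (d2 v p)) = ∏ j ∈ Finset.range n, lam n f j := by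
  obtain ⟨U, hU, hU2⟩ := h.2.1 n p hp
  have h1 := hU2 f hf hm
  have h2 : U.det * U.conjTranspose.det = 1 := by
    rw [← Matrix.det_mul]
    have h3 := Matrix.mem_unitaryGroup_iff.mp hU
    rw [Matrix.star_eq_conjTranspose] at h3
    rw [h3, Matrix.det_one]
  unfold DD
  rw [h1, Matrix.det_mul, Matrix.det_mul, Matrix.det_diagonal]
  calc _ = (U.det * U.conjTranspose.det) * ∏ i : Fin n, lam n f i := by ring
    _ = _ := by rw [h2, one_mul, Finset.prod_range]

theorem cpow_meas (q : ℂ) : Measurable (fun x : ℝ => (x : ℂ) ^ q) :=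
  Complex.measurable_ofReal.pow_const q

theorem cpow_int {q : ℂ} (hq : -1 < q.re) :
    IntegrableOn (fun x : ℝ => (x : ℂ) ^ q) (Set.Icc 0 1) volume := by
  have h := intervalIntegral.intervalIntegrable_cpow' (a := 0) (b := 1) hq
  rw [intervalIntegrable_iff_integrableOn_Icc_of_le zero_le_one] at h
  exact h

/-- Beta integral -/
theorem lam_pow {q : ℂ} (hq : -1 < q.re) {n j : ℕ} (hj : j < n) :
    lam n (fun x : ℝ => (x : ℂ) ^ q) j =
      Complex.Gamma ((j : ℂ) + 1 + q) * Complex.Gamma ((n : ℂ) + 1) /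
      (Complex.Gamma ((j : ℂ) + 1) * Complex.Gamma ((n : ℂ) + 1 + q)) := by
  obtain ⟨m, hm⟩ : ∃ m : ℕ, n = j + 1 + m := ⟨n - (j + 1), by omega⟩
  have hn1 : n - 1 = j + m := by omega
  have hn2 : n - 1 - j = m := by omega
  have h1 : lam n (fun x : ℝ => (x : ℂ) ^ q) j =
      ((n : ℂ) * ((n - 1).choose j : ℂ)) * Complex.betaIntegral ((j : ℂ) + 1 + q) ((m : ℂ) + 1) := by
    unfold lam Complex.betaIntegral bd
    rw [← intervalIntegral.integral_const_mul]
    refine intervalIntegral.integral_congr_ae ?_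
    refine Filter.Eventually.of_forall (fun x hx => ?_)
    rw [Set.uIoc_of_le zero_le_one] at hx
    have hx0 : (x : ℂ) ≠ 0 := by exact_mod_cast hx.1.ne'
    rw [hn2]
    have e1 : (x : ℂ) ^ ((j : ℂ) + 1 + q - 1) = (x : ℂ) ^ j * (x : ℂ) ^ q := by
      rw [show (j : ℂ) + 1 + q - 1 = (j : ℂ) + q by ring, Complex.cpow_add _ _ hx0,
        Complex.cpow_natCast]
    have e2 : (1 - (x : ℂ)) ^ ((m : ℂ) + 1 - 1) = (1 - (x : ℂ)) ^ m := by
      rw [add_sub_cancel_right, Complex.cpow_natCast]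
    rw [e1, e2]
    push_cast
    ring
  have hb := Complex.Gamma_mul_Gamma_eq_betaIntegral (re_pos hq j)
    (show 0 < ((m : ℂ) + 1).re by simp; positivity)
  have hsum : (j : ℂ) + 1 + q + ((m : ℂ) + 1) = (n : ℂ) + 1 + q := by
    rw [hm]; push_cast; ring
  rw [hsum] at hb
  have hG := gam_ne hq n
  have hb2 : Complex.betaIntegral ((j : ℂ) + 1 + q) ((m : ℂ) + 1) =
      Complex.Gamma ((j : ℂ) + 1 + q) * Complex.Gamma ((m : ℂ) + 1) /
        Complex.Gamma ((n : ℂ) + 1 + q) := by
    rw [hb]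
    field_simp
  rw [h1, hb2, Complex.Gamma_nat_eq_factorial, Complex.Gamma_nat_eq_factorial,
    Complex.Gamma_nat_eq_factorial]
  have hfac : (n * (n - 1).choose j) * (j.factorial * m.factorial) = n.factorial := by
    rw [hn1]
    have h2 := Nat.add_choose_mul_factorial_mul_factorial j m
    have h3 : n.factorial = n * (j + m).factorial := by
      rw [← hn1]
      exact (Nat.mul_factorial_pred (by omega)).symm
    rw [h3, ← h2, Nat.choose_symm_add]
    ring
  have hfac2 : ((n : ℂ) * ((n - 1).choose j : ℂ)) * ((j.factorial : ℂ) * (m.factorial : ℂ)) =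
      (n.factorial : ℂ) := by exact_mod_cast hfac
  have hj0 : (j.factorial : ℂ) ≠ 0 := by exact_mod_cast j.factorial_ne_zero
  rw [← hfac2]
  field_simp

/-- **(ONE)** -/
theorem one (h : S_ONB) : S_ONE := by
  intro q hq
  refine ⟨?_, barnes_ne hq, ?_⟩
  · intro n p hp
    rw [DD_radial h n p hp (fun x : ℝ => (x : ℂ) ^ q) (cpow_int hq) (cpow_meas q)]
    refine Finset.prod_congr rfl (fun j hj => ?_)
    exact lam_pow hq (Finset.mem_range.mp hj)
  · exact lim hq

end

end Pool.Agent.P8H87.FM
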