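import Pool.Agent.P8H98.FM.Stm
import Pool.Agent.R923.SE.BG

/-!
# Project FM, package ONE: the one point function (analytic part)
-/

set_option autoImplicit false

open Complex Filter Topology

namespace Pool.Agent.P8H87.FM

open Pool.Agent.P8H98.FM Pool.Agent.R923.SE Pool.Agent.R923.SE.BG

noncomputable section

/-- ratio of Gamma values -/
def rr (q : ℂ) (j : ℕ) : ℂ := Complex.Gamma ((j : ℂ) + 1 + q) / Complex.Gamma ((j : ℂ) + 1)

theorem re_pos {q : ℂ} (hq : -1 < q.re) (j : ℕ) : 0 < ((j : ℂ) + 1 + q).re := by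
  have h2 : (0 : ℝ) ≤ j := Nat.cast_nonneg j
  simp only [add_re, natCast_re, one_re]
  linarith

theorem gam_ne {q : ℂ} (hq : -1 < q.re) (j : ℕ) : Complex.Gamma ((j : ℂ) + 1 + q) ≠ 0 :=
  Complex.Gamma_ne_zero_of_re_pos (re_pos hq j)

theorem gam_ne0 (j : ℕ) : Complex.Gamma ((j : ℂ) + 1) ≠ 0 := by
  have := gam_ne (q := 0) (by simp) j
  rwa [add_zero] at this

theorem rr_ne {q : ℂ} (hq : -1 < q.re) (j : ℕ) : rr q j ≠ 0 :=
  div_ne_zero (gam_ne hq j) (gam_ne0 j)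

theorem base_ne {q : ℂ} (hq : -1 < q.re) (k : ℕ) : 1 + q / ((k : ℂ) + 1) ≠ 0 := by
  have hk := cast_ne k
  intro h
  have h1 : (k : ℂ) + 1 + q = 0 := by
    have h2 : ((k : ℂ) + 1) * (1 + q / ((k : ℂ) + 1)) = (k : ℂ) + 1 + q := by
      field_simp
    rw [← h2, h, mul_zero]
  have h3 := re_pos hq k
  rw [h1] at h3
  simp at h3

theorem rr_succ {q : ℂ} (hq : -1 < q.re) (j : ℕ) : rr q (j + 1) = rr q j * (1 + q / ((j : ℂ) + 1)) := by
  have h1 : (j : ℂ) + 1 + q ≠ 0 := fun h => by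
    have := re_pos hq j; rw [h] at this; simp at this
  have h3 := cast_ne j
  have h0 := gam_ne0 j
  unfold rr
  push_cast
  rw [show (j : ℂ) + 1 + 1 + q = ((j : ℂ) + 1 + q) + 1 by ring,
    Complex.Gamma_add_one _ h1, Complex.Gamma_add_one _ h3]
  field_simp

theorem prod_rr {q : ℂ} (hq : -1 < q.re) (n : ℕ) :
    (∏ j ∈ Finset.range n, rr q j) * ∏ k ∈ Finset.range n, (1 + q / ((k : ℂ) + 1)) ^ (k + 1) =
      rr q n ^ n := by
  induction n with
  | zero => simp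
  | succ n ih =>
    rw [Finset.prod_range_succ, Finset.prod_range_succ, rr_succ hq, mul_pow]
    calc _ = ((∏ j ∈ Finset.range n, rr q j) *
          ∏ k ∈ Finset.range n, (1 + q / ((k : ℂ) + 1)) ^ (k + 1)) *
          rr q n * (1 + q / ((n : ℂ) + 1)) ^ (n + 1) := by ring
      _ = _ := by rw [ih]; ring

/-- the exact product -/
def An (q : ℂ) (n : ℕ) : ℂ := ∏ j ∈ Finset.range n,
    (Complex.Gamma ((j : ℂ) + 1 + q) * Complex.Gamma ((n : ℂ) + 1) /
      (Complex.Gamma ((j : ℂ) + 1) * Complex.Gamma ((n : ℂ) + 1 + q)))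

theorem An_eq {q : ℂ} (hq : -1 < q.re) (n : ℕ) :
    An q n = (∏ k ∈ Finset.range n, (1 + q / ((k : ℂ) + 1)) ^ (k + 1))⁻¹ := by
  have h1 : An q n = (∏ j ∈ Finset.range n, rr q j) * (rr q n ^ n)⁻¹ := by
    unfold An
    have h2 : ∀ j ∈ Finset.range n, (Complex.Gamma ((j : ℂ) + 1 + q) * Complex.Gamma ((n : ℂ) + 1) /
        (Complex.Gamma ((j : ℂ) + 1) * Complex.Gamma ((n : ℂ) + 1 + q))) = rr q j * (rr q n)⁻¹ := by
      intro j _
      unfold rr
      have a1 := gam_ne hq n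
      have a2 := gam_ne0 n
      have a3 := gam_ne0 j
      field_simp
    rw [Finset.prod_congr rfl h2, Finset.prod_mul_distrib, Finset.prod_const, Finset.card_range,
      inv_pow]
  have h3 := prod_rr hq n
  have h4 : rr q n ^ n ≠ 0 := pow_ne_zero _ (rr_ne hq n)
  have h5 : ∏ k ∈ Finset.range n, (1 + q / ((k : ℂ) + 1)) ^ (k + 1) ≠ 0 :=
    Finset.prod_ne_zero_iff.2 fun k _ => pow_ne_zero _ (base_ne hq k)
  rw [h1, ← h3]
  have h6 : ∏ j ∈ Finset.range n, rr q j ≠ 0 := Finset.prod_ne_zero_iff.2 fun k _ => rr_ne hq k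
  field_simp

theorem tm_ne {q : ℂ} (hq : -1 < q.re) (k : ℕ) : tm k q ≠ 0 := by
  unfold tm
  exact mul_ne_zero (pow_ne_zero _ (base_ne hq k)) (Complex.exp_ne_zero _)

theorem P_ne {q : ℂ} (hq : -1 < q.re) : P q ≠ 0 := by
  have h1 : P q = ∏' k, (1 + (tm k q - 1)) := by
    unfold P
    congr 1
    funext k
    ring
  rw [h1]
  refine tprod_one_add_ne_zero_of_summable (f := fun k => tm k q - 1) ?_ ?_
  · intro k
    rw [add_sub_cancel]
    exact tm_ne hq k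
  · have hs : Summable fun k : ℕ => 2 * ‖q‖ ^ 3 * (1 / ((k : ℝ) + 1) ^ 2) := by
      refine Summable.mul_left _ ?_
      have h := (summable_nat_add_iff 1).2 (Real.summable_one_div_nat_pow.2 (by norm_num : 1 < 2))
      refine h.congr fun k => ?_
      push_cast
      ring
    refine Summable.of_norm_bounded_eventually_nat hs ?_
    have h1 : ∀ᶠ k : ℕ in atTop, 2 * ‖q‖ ≤ (k : ℝ) + 1 := by
      filter_upwards [eventually_ge_atTop ⌈2 * ‖q‖⌉₊] with k hk
      have h2 := Nat.le_ceil (2 * ‖q‖)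
      have h3 : ((⌈2 * ‖q‖⌉₊ : ℕ) : ℝ) ≤ (k : ℝ) := by exact_mod_cast hk
      linarith
    have h2 : ∀ᶠ k : ℕ in atTop, ‖q‖ ^ 3 ≤ ((k : ℝ) + 1) ^ 2 := by
      filter_upwards [eventually_ge_atTop ⌈‖q‖ ^ 3⌉₊] with k hk
      have h2 := Nat.le_ceil (‖q‖ ^ 3)
      have h3 : ((⌈‖q‖ ^ 3⌉₊ : ℕ) : ℝ) ≤ (k : ℝ) := by exact_mod_cast hk
      have h4 : (0 : ℝ) ≤ k := by positivity
      nlinarith
    filter_upwards [h1, h2] with k hk1 hk2
    rw [norm_norm]
    exact tm_bound hk1 hk2 le_rfl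

theorem barnes_ne {q : ℂ} (hq : -1 < q.re) : barnesG (1 + q) ≠ 0 := by
  rw [barnesG_eq, add_sub_cancel_left]
  refine mul_ne_zero (mul_ne_zero ?_ (Complex.exp_ne_zero _)) (P_ne hq)
  have hpi : (2 * (Real.pi : ℂ)) ≠ 0 := by simp
  rw [Complex.cpow_def_of_ne_zero hpi]
  exact Complex.exp_ne_zero _

theorem prod_tm (q : ℂ) (n : ℕ) : ∏ k ∈ Finset.range n, tm k q =
    (∏ k ∈ Finset.range n, (1 + q / ((k : ℂ) + 1)) ^ (k + 1)) *
      cexp (q ^ 2 / 2 * ((harmonic n : ℝ) : ℂ) - n * q) := by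
  unfold tm
  rw [Finset.prod_mul_distrib, ← Complex.exp_sum]
  congr 2
  rw [Finset.sum_sub_distrib, Finset.sum_const, Finset.card_range, nsmul_eq_mul, harmonic]
  push_cast
  rw [Finset.mul_sum]
  congr 1
  refine Finset.sum_congr rfl fun k _ => ?_
  have := cast_ne k
  field_simp

theorem m1_eq {q : ℂ} (hq : -1 < q.re) (n : ℕ) (hn : 1 ≤ n) : m1 n q * P q =
    cexp (q ^ 2 / 2 * (((Real.log n + Real.eulerMascheroniConstant : ℝ)) : ℂ) - n * q) := by
  have hP := P_ne hq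
  have hnc : (n : ℂ) ≠ 0 := by exact_mod_cast (by omega : n ≠ 0)
  have hpi : (2 * (Real.pi : ℂ)) ≠ 0 := by simp
  have hpp : (2 * (Real.pi : ℂ)) ^ (q / 2) ≠ 0 := by
    rw [Complex.cpow_def_of_ne_zero hpi]
    exact Complex.exp_ne_zero _
  unfold m1
  rw [barnesG_eq, add_sub_cancel_left, Complex.cpow_def_of_ne_zero hnc, ← Complex.natCast_log]
  have he := Complex.exp_ne_zero (-(q + q ^ 2 * (1 + (Real.eulerMascheroniConstant : ℂ))) / 2)
  rw [div_mul_eq_mul_div, div_eq_iff (mul_ne_zero (mul_ne_zero hpp he) hP)]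
  have e1 : cexp (-(n : ℂ) * q) * cexp ((Real.log n : ℂ) * (q ^ 2 / 2)) *
      cexp (-q / 2 - q ^ 2 / 2) =
      cexp (q ^ 2 / 2 * (((Real.log n + Real.eulerMascheroniConstant : ℝ)) : ℂ) - n * q) *
      cexp (-(q + q ^ 2 * (1 + (Real.eulerMascheroniConstant : ℂ))) / 2) := by
    rw [← Complex.exp_add, ← Complex.exp_add, ← Complex.exp_add]
    congr 1
    push_cast
    ring
  linear_combination ((2 * (Real.pi : ℂ)) ^ (q / 2) * P q) * e1

theorem m1_ne {q : ℂ} (hq : -1 < q.re) (n : ℕ) (hn : 1 ≤ n) : m1 n q ≠ 0 := by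
  intro h
  have := m1_eq hq n hn
  rw [h, zero_mul] at this
  exact Complex.exp_ne_zero _ this.symm

theorem ratio_eq {q : ℂ} (hq : -1 < q.re) (n : ℕ) (hn : 1 ≤ n) : An q n / m1 n q =
    cexp (q ^ 2 / 2 * (((harmonic n : ℝ) - Real.log n - Real.eulerMascheroniConstant : ℝ) : ℂ)) *
      (P q / ∏ k ∈ Finset.range n, tm k q) := by
  have h1 := An_eq hq n
  have h2 := prod_tm q n
  have h3 := m1_eq hq n hn
  have h4 := m1_ne hq n hn
  have hP := P_ne hq
  have h5 : ∏ k ∈ Finset.range n, (1 + q / ((k : ℂ) + 1)) ^ (k + 1) ≠ 0 :=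
    Finset.prod_ne_zero_iff.2 fun k _ => pow_ne_zero _ (base_ne hq k)
  have hx := Complex.exp_ne_zero (q ^ 2 / 2 * ((harmonic n : ℝ) : ℂ) - n * q)
  have e1 : cexp (q ^ 2 / 2 * (((harmonic n : ℝ) - Real.log n -
        Real.eulerMascheroniConstant : ℝ) : ℂ)) *
      cexp (q ^ 2 / 2 * (((Real.log n + Real.eulerMascheroniConstant : ℝ)) : ℂ) - n * q) =
      cexp (q ^ 2 / 2 * ((harmonic n : ℝ) : ℂ) - n * q) := by
    rw [← Complex.exp_add]
    congr 1
    push_cast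
    ring
  have key : ∀ D E1 E2 E3 p m : ℂ, D ≠ 0 → E3 ≠ 0 → m * p = E2 → E1 * E2 = E3 →
      D⁻¹ = E1 * (p / (D * E3)) * m := by
    intro D E1 E2 E3 p m hD hE3 hm hE
    rw [show E1 * (p / (D * E3)) * m = (E1 * (m * p)) / (D * E3) by ring, hm, hE]
    field_simp
  rw [h1, h2, div_eq_iff h4]
  exact key _ _ _ _ _ _ h5 hx h3 e1

theorem lim {q : ℂ} (hq : -1 < q.re) : Tendsto (fun n : ℕ => An q n / m1 n q) atTop (𝓝 1) := by
  have h1 : Tendsto (fun n : ℕ => (harmonic n : ℝ) - Real.log n -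
      Real.eulerMascheroniConstant) atTop (𝓝 0) := by
    have := Real.tendsto_harmonic_sub_log.sub_const Real.eulerMascheroniConstant
    simpa using this
  have h2 : Tendsto (fun n : ℕ => cexp (q ^ 2 / 2 * (((harmonic n : ℝ) - Real.log n -
      Real.eulerMascheroniConstant : ℝ) : ℂ))) atTop (𝓝 1) := by
    have h3 : Tendsto (fun x : ℝ => cexp (q ^ 2 / 2 * (x : ℂ))) (𝓝 0) (𝓝 1) := by
      have : Continuous (fun x : ℝ => cexp (q ^ 2 / 2 * (x : ℂ))) := by fun_prop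
      have h4 := this.tendsto 0
      simpa using h4
    exact h3.comp h1
  have h5 : Tendsto (fun n : ℕ => P q / ∏ k ∈ Finset.range n, tm k q) atTop (𝓝 1) := by
    have h6 := (tendsto_const_nhds (x := P q)).div (P_tendsto q) (P_ne hq)
    rwa [div_self (P_ne hq)] at h6
  have h7 := h2.mul h5
  rw [one_mul] at h7
  refine h7.congr' ?_
  filter_upwards [eventually_ge_atTop 1] with n hn
  exact (ratio_eq hq n hn).symm

end

end Pool.Agent.P8H87.FM
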