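import Pool.Agent.P8H87.FM.RadB

/-!
# Project FM, package RAD
-/

set_option autoImplicit false

open Complex Filter Topology MeasureTheory
open scoped ComplexConjugate ENNReal

namespace Pool.Agent.P8H87.FM

open Pool.Agent.P8H98.FM Pool.Agent.R923.SE

noncomputable section

theorem half_sq {x κ : ℝ} (hx : 0 ≤ x) : (x ^ (κ / 2)) ^ 2 = x ^ κ := by
  rw [← Real.rpow_natCast, ← Real.rpow_mul hx]
  congr 1
  push_cast
  ring

theorem lam_ne {δ : ℝ} {q : ℂ} {C : ℝ} {n : ℕ} (hn : 1 ≤ n)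
    (h : ∀ j < n, (n : ℝ) ^ (-C) ≤ ‖lam n (sc δ q) j‖) (j : Fin n) : lam n (sc δ q) j ≠ 0 := by
  intro h0
  have h1 := h j j.2
  rw [h0, norm_zero] at h1
  have h2 : (0 : ℝ) < (n : ℝ) ^ (-C) := Real.rpow_pos_of_pos (by exact_mod_cast hn) _
  linarith

/-- **(RAD, first part)** -/
theorem rad1 (hK : S_KER) (hO : S_ONB) (hB : S_BET) (p : Om) (δ : ℝ) (q : ℂ) (κ : ℝ)
    (hp : nn2 p ≠ 0) (hδ : 0 < δ) (hδ1 : δ ≤ 1) (hq : -1 < q.re) (hκ : 0 < κ) (hκ1 : κ < 1)
    (hqκ : -1 < 2 * q.re + κ) :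
    Good (fun v => sc δ q (d2 v p)) (fun v => d2 v p ^ (κ / 2)) ∧
      PB (fun v => sc δ q (d2 v p)) := by
  obtain ⟨C, hC, hev⟩ := hB δ q κ hδ hδ1 hq hκ hκ1 hqκ
  have hm : Measurable (fun v => sc δ q (d2 v p)) := (sc_meas δ q).comp (d2_meas hK p)
  have hsq : ∀ v, (d2 v p ^ (κ / 2)) ^ 2 = d2 v p ^ κ := fun v => half_sq (d2_nonneg hK v p)
  have hSq : Sq κ (sc δ q) := Sq.sc hδ (by linarith) hqκ
  have hdet : ∀ᶠ n : ℕ in atTop, (TT n (fun v => sc δ q (d2 v p))).det ≠ 0 := by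
    filter_upwards [hev, eventually_ge_atTop 1] with n hn h1
    obtain ⟨U, hA⟩ := exists_Ad hO n p hp
    exact (TT_inv hA.1 hA.2.1 _ (lam_ne h1 (fun j hj => (hn j hj).1)) _
      (hA.2.2 _ (sc_int hδ hq) (sc_meas δ q))).1
  refine ⟨⟨hm, ?_, ?_, hdet, ?_⟩, ?_⟩
  · exact (int_iff hK p hp _ (sc_meas δ q).stronglyMeasurable).mpr (sc_int hδ hq)
  · have h1 := (int_iff hK p hp (fun x : ℝ => x ^ κ * ‖sc δ q x‖ ^ 2)
      ((rpow_meas κ).mul ((sc_meas δ q).norm.pow_const 2)).stronglyMeasurable).mpr hSq.2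
    refine h1.congr (Filter.Eventually.of_forall (fun v => ?_))
    simp only [hsq]
  · refine ⟨fun n => C * (n : ℝ) ^ (-κ), ?_, ?_⟩
    · have h1 : Tendsto (fun n : ℕ => (n : ℝ) ^ (-κ)) atTop (𝓝 0) :=
        (tendsto_rpow_neg_atTop hκ).comp tendsto_natCast_atTop_atTop
      have h2 := h1.const_mul C
      rwa [mul_zero] at h2
    · filter_upwards [hev, eventually_ge_atTop 1] with n hn h1 e
      obtain ⟨U, hA⟩ := exists_Ad hO n p hp
      have hl := lam_ne h1 (fun j hj => (hn j hj).1)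
      have hc : ∀ j : Fin n, Sq κ (fun x => sc δ q x / lam n (sc δ q) j - 1) := by
        intro j
        have h2 := (hSq.smul (lam n (sc δ q) j)⁻¹).add (Sq.const (by linarith) (-1) : Sq κ _)
        have h3 : (fun x => sc δ q x / lam n (sc δ q) j - 1) =
            fun x => (lam n (sc δ q) j)⁻¹ * sc δ q x + -1 := by
          funext x
          ring
        rw [h3]
        exact h2
      have h2 := (star2 hK hp hA (fun (j : Fin n) x => sc δ q x / lam n (sc δ q) j - 1) hc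
        (fun j => ∑ i, e i * U i j)).2
      have h3 : ∀ v, (d2 v p ^ (κ / 2)) ^ 2 *
          ‖∑ i, e i * xf n (fun v => sc δ q (d2 v p)) v i‖ ^ 2 =
          d2 v p ^ κ * ‖∑ j : Fin n, (∑ i, e i * U i j) *
            ((sc δ q (d2 v p) / lam n (sc δ q) j - 1) * zz U v j)‖ ^ 2 := by
        intro v
        rw [hsq]
        congr 3
        have h4 : ∀ i ∈ (Finset.univ : Finset (Fin n)), e i * xf n (fun v => sc δ q (d2 v p)) v i =
            ∑ j : Fin n, e i * U i j *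
              ((sc δ q (d2 v p) / lam n (sc δ q) j - 1) * zz U v j) := by
          intro i _
          rw [xf_eq hA (sc δ q) (sc_int hδ hq) (sc_meas δ q) hl v i, Finset.mul_sum]
          refine Finset.sum_congr rfl (fun j _ => ?_)
          ring
        rw [Finset.sum_congr rfl h4, Finset.sum_comm]
        refine Finset.sum_congr rfl (fun j _ => ?_)
        rw [Finset.sum_mul]
      simp only [h3]
      rw [h2]
      calc _ ≤ ∑ j : Fin n, ‖∑ i, e i * U i j‖ ^ 2 * (C * (n : ℝ) ^ (-κ)) := by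
            refine Finset.sum_le_sum (fun j _ => ?_)
            exact mul_le_mul_of_nonneg_left (hn j j.2).2 (by positivity)
        _ = (C * (n : ℝ) ^ (-κ)) * ns (fun j => ∑ i, e i * U i j) := by
            rw [← Finset.sum_mul, mul_comm]
            rfl
        _ = _ := by rw [ns_vecMul hA.2.1]
  · refine ⟨2 * C, by linarith, ?_⟩
    filter_upwards [hev, hdet, eventually_ge_atTop 1] with n hn hd h1
    refine ⟨hd, fun x => ?_⟩
    obtain ⟨U, hA⟩ := exists_Ad hO n p hp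
    have hl := lam_ne h1 (fun j hj => (hn j hj).1)
    have hn0 : (0 : ℝ) < n := by exact_mod_cast h1
    rw [(TT_inv hA.1 hA.2.1 _ hl _ (hA.2.2 _ (sc_int hδ hq) (sc_meas δ q))).2,
      ← Matrix.mulVec_mulVec, ← Matrix.mulVec_mulVec, ns_unitary hA.1]
    have h4 : ns (U.conjTranspose.mulVec x) = ns x :=
      ns_unitary (by rw [Matrix.conjTranspose_conjTranspose]; exact hA.2.1) x
    rw [← h4]
    unfold ns
    rw [Finset.mul_sum]
    refine Finset.sum_le_sum (fun j _ => ?_)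
    rw [Matrix.mulVec_diagonal, norm_mul, mul_pow]
    refine mul_le_mul_of_nonneg_right ?_ (by positivity)
    rw [norm_inv, inv_pow]
    have h5 := (hn j j.2).1
    have h6 : (0 : ℝ) < (n : ℝ) ^ (-C) := Real.rpow_pos_of_pos hn0 _
    have h7 : ((n : ℝ) ^ (-C)) ^ 2 ≤ ‖lam n (sc δ q) j‖ ^ 2 := pow_le_pow_left₀ h6.le h5 2
    have h8 : (n : ℝ) ^ (2 * C) = (((n : ℝ) ^ (-C)) ^ 2)⁻¹ := by
      rw [← Real.rpow_natCast, ← Real.rpow_mul hn0.le, ← Real.rpow_neg hn0.le]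
      congr 1
      push_cast
      ring
    rw [h8]
    exact inv_anti₀ (by positivity) h7

/-! ### the trace functional -/

theorem xf_int (hK : S_KER) (n : ℕ) (a : Om → ℂ) (ha : Integrable a sg) (l : Fin n) :
    Integrable (fun v => xf n a v l) sg := by
  have h1 : ∀ v, xf n a v l = (∑ k, (TT n a)⁻¹ l k * (a v * ph n v k)) - 1 * ph n v l := by
    intro v
    rw [one_mul]
    rfl
  simp only [h1]
  refine Integrable.sub ?_ ?_
  · exact integrable_finsetSum _ (fun k _ => (int_ph1 hK n a ha k).const_mul _)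
  · exact int_ph1 hK n (fun _ => 1) (integrable_const 1) l

theorem yf_meas (hK : S_KER) (n : ℕ) (b : Om → ℂ) (hb : Measurable b) (l : Fin n) :
    Measurable (fun v => yf n b v l) := by
  unfold yf
  refine Measurable.sub ?_ (Complex.continuous_conj.measurable.comp (ph_meas hK n l))
  refine Finset.measurable_sum _ (fun i _ => ?_)
  exact (hb.mul (Complex.continuous_conj.measurable.comp (ph_meas hK n i))).mul_const _

theorem norm_le_of_ns {n : ℕ} {y : Fin n → ℂ} {C : ℝ} (h : ns y ≤ C) (l : Fin n) :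
    ‖y l‖ ≤ √C := by
  refine Real.le_sqrt_of_sq_le (le_trans ?_ h)
  unfold ns
  exact Finset.single_le_sum (f := fun i => ‖y i‖ ^ 2) (fun _ _ => by positivity)
    (Finset.mem_univ l)

theorem xy_int (hK : S_KER) (n : ℕ) (a b : Om → ℂ) (ha : Integrable a sg) (hb : Measurable b)
    {C : ℝ} (hC : ∀ v, nn2 v ≠ 0 → ns (yf n b v) ≤ C) :
    Integrable (fun v => ∑ l, xf n a v l * yf n b v l) sg := by
  refine integrable_finsetSum _ (fun l _ => ?_)
  refine ((xf_int hK n a ha l).norm.mul_const (√C)).mono'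
    ((xf_int hK n a ha l).aestronglyMeasurable.mul
      (yf_meas hK n b hb l).aestronglyMeasurable) ?_
  filter_upwards [hK.2.2.2.2.1] with v hv
  rw [norm_mul]
  exact mul_le_mul_of_nonneg_left (norm_le_of_ns (hC v hv) l) (norm_nonneg _)

/-- Cauchy–Schwarz with weights, in the form of the arithmetic geometric mean inequality -/
theorem amgm {n : ℕ} (X y : Fin n → ℂ) {w t C : ℝ} (hw : 0 < w) (ht : 0 < t) (hy : ns y ≤ C) :
    ‖∑ l, X l * y l‖ ≤ t⁻¹ / 2 * (w * ns X) + t * C / 2 * w⁻¹ := by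
  have h1 : ‖∑ l, X l * y l‖ ≤ ∑ l, (t⁻¹ / 2 * (w * ‖X l‖ ^ 2) + t / 2 * w⁻¹ * ‖y l‖ ^ 2) := by
    refine (norm_sum_le _ _).trans (Finset.sum_le_sum (fun l _ => ?_))
    rw [norm_mul]
    have h2 : t⁻¹ / 2 * (w * ‖X l‖ ^ 2) + t / 2 * w⁻¹ * ‖y l‖ ^ 2 - ‖X l‖ * ‖y l‖ =
        1 / (2 * (t * w)) * (w * ‖X l‖ - t * ‖y l‖) ^ 2 := by
      field_simp
      ring
    have h3 : 0 ≤ 1 / (2 * (t * w)) * (w * ‖X l‖ - t * ‖y l‖) ^ 2 := by positivity
    linarith
  refine h1.trans ?_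
  rw [Finset.sum_add_distrib, ← Finset.mul_sum, ← Finset.mul_sum, ← Finset.mul_sum]
  have h4 : t / 2 * w⁻¹ * ns y ≤ t / 2 * w⁻¹ * C := mul_le_mul_of_nonneg_left hy (by positivity)
  unfold ns at h4 ⊢
  have h5 : t / 2 * w⁻¹ * C = t * C / 2 * w⁻¹ := by ring
  linarith

theorem d2_pos (hK : S_KER) {p : Om} (hp : nn2 p ≠ 0) : ∀ᵐ v ∂sg, 0 < d2 v p := by
  have h := ae_pos
  rw [← map_d2 hK p hp] at h
  exact ae_of_ae_map (d2_meas hK p).aemeasurable h

theorem inv_int (hK : S_KER) {p : Om} (hp : nn2 p ≠ 0) {κ : ℝ} (hκ : κ < 1) :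
    Integrable (fun v => (d2 v p ^ κ)⁻¹) sg := by
  have hm : Measurable (fun x : ℝ => (x ^ κ)⁻¹) := (rpow_meas κ).inv
  refine (int_iff hK p hp (fun x : ℝ => (x ^ κ)⁻¹) hm.stronglyMeasurable).mpr ?_
  refine (rpow_int (r := -κ) (by linarith)).congr ?_
  filter_upwards [ae_pos] with x hx
  rw [Real.rpow_neg hx.le]

theorem ns_add_int (hK : S_KER) {n : ℕ} {p : Om} (hp : nn2 p ≠ 0)
    {U : Matrix (Fin n) (Fin n) ℂ} (hA : Ad n p U)
    {κ : ℝ} (c : Fin n → ℝ → ℂ) (hc : ∀ j, Sq κ (c j)) :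
    Integrable (fun v => d2 v p ^ κ * ns (U.mulVec fun j => c j (d2 v p) * zz U v j)) sg ∧
      ∫ v, d2 v p ^ κ * ns (U.mulVec fun j => c j (d2 v p) * zz U v j) ∂sg =
      ∑ j : Fin n, lar n (fun x => ‖c j x‖ ^ 2 * x ^ κ) j := by
  have h1 : ∀ v, d2 v p ^ κ * ns (U.mulVec fun j => c j (d2 v p) * zz U v j) =
      ∑ k : Fin n, d2 v p ^ κ * ‖∑ j, (Pi.single k (1 : ℂ) : Fin n → ℂ) j *
        (c j (d2 v p) * zz U v j)‖ ^ 2 := by
    intro v
    rw [ns_unitary hA.1]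
    unfold ns
    rw [Finset.mul_sum]
    refine Finset.sum_congr rfl (fun k _ => ?_)
    congr 3
    rw [Finset.sum_eq_single k]
    · rw [Pi.single_eq_same, one_mul]
    · intro j _ hj
      rw [Pi.single_eq_of_ne hj, zero_mul]
    · intro h
      exact absurd (Finset.mem_univ k) h
  have h2 := fun k : Fin n => star2 hK hp hA c hc (Pi.single k (1 : ℂ))
  constructor
  · simp only [h1]
    exact integrable_finsetSum _ (fun k _ => (h2 k).1)
  · simp only [h1]
    rw [integral_finsetSum _ (fun k _ => (h2 k).1)]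
    refine Finset.sum_congr rfl (fun k _ => ?_)
    rw [(h2 k).2, Finset.sum_eq_single k]
    · rw [Pi.single_eq_same, norm_one, one_pow, one_mul]
    · intro j _ hj
      rw [Pi.single_eq_of_ne hj, norm_zero]
      ring
    · intro h
      exact absurd (Finset.mem_univ k) h

theorem int_sub3 {f g h : Om → ℂ} (hf : Integrable f sg) (hg : Integrable g sg)
    (hh : Integrable h sg) :
    ∫ v, (f v - g v - h v) ∂sg = ∫ v, f v ∂sg - ∫ v, g v ∂sg - ∫ v, h v ∂sg := by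
  have h1 : Integrable (fun v => f v - g v) sg := hf.sub hg
  rw [integral_sub h1 hh, integral_sub hf hg]

/-- **(RAD, second part)** -/
theorem rad2 (hK : S_KER) (hO : S_ONB) (hB : S_BET) (hB2 : S_BET2) (hL : S_LIP) (hT : S_TRC)
    (p : Om) (δ : ℝ) (q q' : ℂ) (b : Om → ℂ) (hp : nn2 p ≠ 0) (hδ : 0 < δ) (hδ1 : δ ≤ 1)
    (hq : -1 < q.re) (hq' : -1 < q'.re) (hqq : -1 < (q + q').re) (hb : Lp b) :
    Tendsto (fun n => tn n (fun v => sc δ (q + q') (d2 v p)) b -
      tn n (fun v => sc δ q (d2 v p)) b - tn n (fun v => sc δ q' (d2 v p)) b) atTop (𝓝 0) := by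
  obtain ⟨κ, hκ0, hκ1, k1, k2, k3⟩ : ∃ κ : ℝ, 0 < κ ∧ κ < 1 ∧ -1 < 2 * q.re + κ ∧
      -1 < 2 * q'.re + κ ∧ -1 < 2 * (q + q').re + κ := by
    set m := min q.re (min q'.re (q + q').re) with hm
    have hm1 : -1 < m := lt_min hq (lt_min hq' hqq)
    have m1 : m ≤ q.re := min_le_left _ _
    have m2 : m ≤ q'.re := (min_le_right _ _).trans (min_le_left _ _)
    have m3 : m ≤ (q + q').re := (min_le_right _ _).trans (min_le_right _ _)
    refine ⟨(max 0 (-1 - 2 * m) + 1) / 2, ?_, ?_, ?_, ?_, ?_⟩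
    · have := le_max_left 0 (-1 - 2 * m); linarith
    · have : max 0 (-1 - 2 * m) < 1 := max_lt (by norm_num) (by linarith)
      linarith
    all_goals
      have h1 : max 0 (-1 - 2 * m) < 1 := max_lt (by norm_num) (by linarith)
      have h2 := le_max_right 0 (-1 - 2 * m)
      linarith
  obtain ⟨C1, hC1, ev1⟩ := hB δ q κ hδ hδ1 hq hκ0 hκ1 k1
  obtain ⟨C2, hC2, ev2⟩ := hB δ q' κ hδ hδ1 hq' hκ0 hκ1 k2
  obtain ⟨C3, hC3, ev3⟩ := hB δ (q + q') κ hδ hδ1 hqq hκ0 hκ1 k3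
  have hS := hB2 δ q q' κ hδ hδ1 hq hq' hqq hκ0 hκ1 k1 k2 k3
  obtain ⟨C, evL⟩ := hL.2.2 b hb
  have hκm : -1 < κ := by linarith
  have main : ∀ᶠ n : ℕ in atTop, ∀ t : ℝ, 0 < t → ‖tn n (fun v => sc δ (q + q') (d2 v p)) b -
      tn n (fun v => sc δ q (d2 v p)) b - tn n (fun v => sc δ q' (d2 v p)) b‖ ≤
      t⁻¹ / 2 * (∑ j ∈ Finset.range n, lar n (fun x =>
        ‖sc δ (q + q') x / lam n (sc δ (q + q')) j - sc δ q x / lam n (sc δ q) j -
          sc δ q' x / lam n (sc δ q') j + 1‖ ^ 2 * x ^ κ) j) +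
        t * |C| / 2 * ∫ v, (d2 v p ^ κ)⁻¹ ∂sg := by
    filter_upwards [ev1, ev2, ev3, evL, eventually_ge_atTop 1] with n h1 h2 h3 h4 hn t ht
    obtain ⟨U, hA⟩ := exists_Ad hO n p hp
    have l1 := lam_ne hn (fun j hj => (h1 j hj).1)
    have l2 := lam_ne hn (fun j hj => (h2 j hj).1)
    have l3 := lam_ne hn (fun j hj => (h3 j hj).1)
    have d1 := (TT_inv hA.1 hA.2.1 _ l1 _ (hA.2.2 _ (sc_int hδ hq) (sc_meas δ q))).1
    have d2' := (TT_inv hA.1 hA.2.1 _ l2 _ (hA.2.2 _ (sc_int hδ hq') (sc_meas δ q'))).1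
    have d3 := (TT_inv hA.1 hA.2.1 _ l3 _ (hA.2.2 _ (sc_int hδ hqq) (sc_meas δ (q + q')))).1
    have m1 : Measurable (fun v => sc δ q (d2 v p)) := (sc_meas δ q).comp (d2_meas hK p)
    have m2 : Measurable (fun v => sc δ q' (d2 v p)) := (sc_meas δ q').comp (d2_meas hK p)
    have m3 : Measurable (fun v => sc δ (q + q') (d2 v p)) :=
      (sc_meas δ (q + q')).comp (d2_meas hK p)
    have i1 : Integrable (fun v => sc δ q (d2 v p)) sg :=
      (int_iff hK p hp _ (sc_meas δ q).stronglyMeasurable).mpr (sc_int hδ hq)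
    have i2 : Integrable (fun v => sc δ q' (d2 v p)) sg :=
      (int_iff hK p hp _ (sc_meas δ q').stronglyMeasurable).mpr (sc_int hδ hq')
    have i3 : Integrable (fun v => sc δ (q + q') (d2 v p)) sg :=
      (int_iff hK p hp _ (sc_meas δ (q + q')).stronglyMeasurable).mpr (sc_int hδ hqq)
    have t1 := (hT n _ b m1 i1 hb d1 h4.1).2.2
    have t2 := (hT n _ b m2 i2 hb d2' h4.1).2.2
    have t3 := (hT n _ b m3 i3 hb d3 h4.1).2.2
    have j1 := xy_int hK n _ b i1 hb.1 h4.2.2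
    have j2 := xy_int hK n _ b i2 hb.1 h4.2.2
    have j3 := xy_int hK n _ b i3 hb.1 h4.2.2
    rw [t1, t2, t3, ← int_sub3 j3 j1 j2]
    set c : Fin n → ℝ → ℂ := fun j x => sc δ (q + q') x / lam n (sc δ (q + q')) j -
      sc δ q x / lam n (sc δ q) j - sc δ q' x / lam n (sc δ q') j + 1 with hc
    have hcS : ∀ j, Sq κ (c j) := by
      intro j
      have s1 := (Sq.sc hδ hκm k1 : Sq κ (sc δ q)).smul (-(lam n (sc δ q) j)⁻¹)
      have s2 := (Sq.sc hδ hκm k2 : Sq κ (sc δ q')).smul (-(lam n (sc δ q') j)⁻¹)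
      have s3 := (Sq.sc hδ hκm k3 : Sq κ (sc δ (q + q'))).smul ((lam n (sc δ (q + q')) j)⁻¹)
      have s4 := ((s3.add s1).add s2).add (Sq.const hκm 1 : Sq κ _)
      have s5 : c j = fun x => (lam n (sc δ (q + q')) j)⁻¹ * sc δ (q + q') x +
          -(lam n (sc δ q) j)⁻¹ * sc δ q x + -(lam n (sc δ q') j)⁻¹ * sc δ q' x + 1 := by
        funext x
        simp only [hc]
        ring
      rw [s5]
      exact s4
    obtain ⟨gi, gv⟩ := ns_add_int hK hp hA c hcS
    have hii := inv_int hK hp hκ1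
    have hg : Integrable (fun v => t⁻¹ / 2 * (d2 v p ^ κ *
        ns (U.mulVec fun j => c j (d2 v p) * zz U v j)) + t * |C| / 2 * (d2 v p ^ κ)⁻¹) sg :=
      (gi.const_mul _).add (hii.const_mul _)
    refine (norm_integral_le_of_norm_le hg ?_).trans (le_of_eq ?_)
    · filter_upwards [d2_pos hK hp, hK.2.2.2.2.1] with v hv hv2
      have e1 : (∑ l, xf n (fun v => sc δ (q + q') (d2 v p)) v l * yf n b v l) -
          (∑ l, xf n (fun v => sc δ q (d2 v p)) v l * yf n b v l) -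
          (∑ l, xf n (fun v => sc δ q' (d2 v p)) v l * yf n b v l) =
          ∑ l, (U.mulVec fun j => c j (d2 v p) * zz U v j) l * yf n b v l := by
        rw [← Finset.sum_sub_distrib, ← Finset.sum_sub_distrib]
        refine Finset.sum_congr rfl (fun l _ => ?_)
        rw [← sub_mul, ← sub_mul]
        congr 1
        rw [xf_eq hA _ (sc_int hδ hq) (sc_meas δ q) l1 v l,
          xf_eq hA _ (sc_int hδ hq') (sc_meas δ q') l2 v l,
          xf_eq hA _ (sc_int hδ hqq) (sc_meas δ (q + q')) l3 v l,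
          ← Finset.sum_sub_distrib, ← Finset.sum_sub_distrib]
        refine Finset.sum_congr rfl (fun j _ => ?_)
        simp only [hc]
        ring
      rw [e1]
      exact amgm _ _ (Real.rpow_pos_of_pos hv κ) ht ((h4.2.2 v hv2).trans (le_abs_self C))
    · rw [integral_add (gi.const_mul _) (hii.const_mul _), integral_const_mul,
        integral_const_mul, gv, Finset.sum_range]
  set A := ∫ v, (d2 v p ^ κ)⁻¹ ∂sg with hAdef
  have hA0 : 0 ≤ A := integral_nonneg (fun v => by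
    have := Real.rpow_nonneg (d2_nonneg hK v p) κ
    positivity)
  rw [Metric.tendsto_atTop']
  intro ε hε
  have hCA : 0 ≤ |C| * A := mul_nonneg (abs_nonneg C) hA0
  have ht : 0 < ε / (|C| * A + 1) := by positivity
  set t := ε / (|C| * A + 1) with htdef
  have hev := hS.eventually (gt_mem_nhds (show (0 : ℝ) < ε * t by positivity))
  obtain ⟨N, hN⟩ := eventually_atTop.mp (main.and hev)
  refine ⟨N, fun n hn => ?_⟩
  obtain ⟨g1, g2⟩ := hN n hn.le
  rw [dist_zero_right]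
  refine lt_of_le_of_lt (g1 t ht) ?_
  have g3 : t⁻¹ / 2 * (∑ j ∈ Finset.range n, lar n (fun x =>
        ‖sc δ (q + q') x / lam n (sc δ (q + q')) j - sc δ q x / lam n (sc δ q) j -
          sc δ q' x / lam n (sc δ q') j + 1‖ ^ 2 * x ^ κ) j) < t⁻¹ / 2 * (ε * t) :=
    mul_lt_mul_of_pos_left g2 (by positivity)
  have g4 : t⁻¹ / 2 * (ε * t) = ε / 2 := by
    field_simp
  have g5 : t * |C| / 2 * A ≤ ε / 2 := by
    have g6 : t * (|C| * A + 1) = ε := by
      rw [htdef]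
      field_simp
    nlinarith
  linarith

/-- **(RAD)** -/
theorem rad (hK : S_KER) (hO : S_ONB) (hB : S_BET) (hB2 : S_BET2) (hL : S_LIP) (hT : S_TRC) :
    S_RAD :=
  ⟨fun p δ q κ hp hδ hδ1 hq hκ hκ1 hqκ => rad1 hK hO hB p δ q κ hp hδ hδ1 hq hκ hκ1 hqκ,
    fun p δ q q' b hp hδ hδ1 hq hq' hqq hb =>
      rad2 hK hO hB hB2 hL hT p δ q q' b hp hδ hδ1 hq hq' hqq hb⟩

end

end Pool.Agent.P8H87.FM
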