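import Pool.Agent.P8H98.FM.Stm

/-!
# Project FM, package RAD: the law of the distance, integrability
-/

set_option autoImplicit false

open Complex Filter Topology MeasureTheory
open scoped ComplexConjugate ENNReal

namespace Pool.Agent.P8H87.FM

open Pool.Agent.P8H98.FM Pool.Agent.R923.SE

noncomputable section

theorem d2_meas (hK : S_KER) (w : Om) : Measurable (fun v => d2 v w) := by
  have h : Measurable (fun p : Om × Om => d2 p.1 p.2) := hK.2.2.2.2.2.1
  have h2 : Measurable (fun v : Om => (v, w)) := measurable_id.prodMk measurable_const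
  have h3 := h.comp h2
  exact h3

theorem map_d2 (hK : S_KER) (w : Om) (hw : nn2 w ≠ 0) :
    sg.map (fun v => d2 v w) = volume.restrict (Set.Icc (0 : ℝ) 1) := by
  ext s hs
  rw [Measure.map_apply (d2_meas hK w) hs]
  have h := hK.2.2.2.2.2.2.2.2 w hw (s.indicator 1) (measurable_one.indicator hs)
  have h1 : ∫⁻ v, s.indicator (1 : ℝ → ℝ≥0∞) (d2 v w) ∂sg = sg ((fun v => d2 v w) ⁻¹' s) := by
    rw [← lintegral_indicator_one ((d2_meas hK w) hs)]
    rfl
  rw [← h1, h, lintegral_indicator_one hs]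

theorem int_iff {E : Type*} [NormedAddCommGroup E] (hK : S_KER) (w : Om) (hw : nn2 w ≠ 0)
    (g : ℝ → E) (hg : StronglyMeasurable g) :
    Integrable (fun v => g (d2 v w)) sg ↔ IntegrableOn g (Set.Icc 0 1) volume := by
  have h := integrable_map_measure (μ := sg) (f := fun v => d2 v w) (g := g)
    hg.aestronglyMeasurable (d2_meas hK w).aemeasurable
  rw [map_d2 hK w hw] at h
  exact h.symm

theorem ph_meas (hK : S_KER) (n : ℕ) (j : Fin n) : Measurable fun v => ph n v j :=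
  hK.2.2.2.1 n j

theorem ph_le (hK : S_KER) (n : ℕ) : ∀ᵐ v ∂sg, ∀ i : Fin n, ‖ph n v i‖ ≤ √(n : ℝ) := by
  filter_upwards [hK.2.2.2.2.1] with v hv i
  have h1 := hK.2.2.1 n v hv
  unfold ns at h1
  have h2 : ‖ph n v i‖ ^ 2 ≤ n := by
    rw [← h1]
    exact Finset.single_le_sum (f := fun i => ‖ph n v i‖ ^ 2) (fun _ _ => by positivity)
      (Finset.mem_univ i)
  exact Real.le_sqrt_of_sq_le h2

theorem int_ph2 (hK : S_KER) (n : ℕ) (h : Om → ℂ) (hi : Integrable h sg) (i l : Fin n) :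
    Integrable (fun v => h v * (ph n v i * conj (ph n v l))) sg := by
  have hm : AEStronglyMeasurable (fun v => ph n v i * conj (ph n v l)) sg :=
    ((ph_meas hK n i).mul
      (Complex.continuous_conj.measurable.comp (ph_meas hK n l))).aestronglyMeasurable
  refine (hi.norm.mul_const (n : ℝ)).mono' (hi.aestronglyMeasurable.mul hm) ?_
  filter_upwards [ph_le hK n] with v hv
  rw [norm_mul, norm_mul, RCLike.norm_conj]
  refine mul_le_mul_of_nonneg_left ?_ (norm_nonneg _)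
  calc ‖ph n v i‖ * ‖ph n v l‖ ≤ √(n : ℝ) * √(n : ℝ) :=
        mul_le_mul (hv i) (hv l) (norm_nonneg _) (Real.sqrt_nonneg _)
    _ = n := Real.mul_self_sqrt (Nat.cast_nonneg n)

theorem int_ph1 (hK : S_KER) (n : ℕ) (h : Om → ℂ) (hi : Integrable h sg) (i : Fin n) :
    Integrable (fun v => h v * ph n v i) sg := by
  have hm : AEStronglyMeasurable (fun v => ph n v i) sg := (ph_meas hK n i).aestronglyMeasurable
  refine (hi.norm.mul_const (√(n : ℝ))).mono' (hi.aestronglyMeasurable.mul hm) ?_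
  filter_upwards [ph_le hK n] with v hv
  rw [norm_mul]
  exact mul_le_mul_of_nonneg_left (hv i) (norm_nonneg _)

/-! ### the singular symbol -/

theorem sc_meas (δ : ℝ) (q : ℂ) : Measurable (sc δ q) := by
  unfold sc
  exact (Complex.measurable_ofReal.comp
    ((measurable_id.div_const δ).min measurable_const)).pow_const q

theorem sc_norm_pow_le {δ : ℝ} (hδ : 0 < δ) (q : ℂ) (x : ℝ) (hx : 0 < x) (m : ℕ) :
    ‖sc δ q x‖ ^ m ≤ (x / δ) ^ (m * q.re) + 1 := by
  unfold sc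
  have hy : 0 < min (x / δ) 1 := lt_min (div_pos hx hδ) one_pos
  rw [Complex.norm_cpow_eq_rpow_re_of_pos hy, ← Real.rpow_natCast, ← Real.rpow_mul hy.le,
    mul_comm q.re]
  rcases le_total (x / δ) 1 with h | h
  · rw [min_eq_left h]
    linarith [Real.rpow_nonneg (div_pos hx hδ).le (m * q.re)]
  · rw [min_eq_right h, Real.one_rpow]
    linarith [Real.rpow_nonneg (div_pos hx hδ).le (m * q.re)]

theorem rpow_int {r : ℝ} (hr : -1 < r) : IntegrableOn (fun x : ℝ => x ^ r) (Set.Icc 0 1) volume := by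
  have h := intervalIntegral.intervalIntegrable_rpow' (a := 0) (b := 1) hr
  rw [intervalIntegrable_iff_integrableOn_Icc_of_le zero_le_one] at h
  exact h

theorem ae_pos : ∀ᵐ x ∂(volume.restrict (Set.Icc (0 : ℝ) 1)), 0 < x := by
  have h1 : ∀ᵐ x ∂(volume.restrict (Set.Icc (0 : ℝ) 1)), x ≠ 0 :=
    ae_restrict_of_ae (Measure.ae_ne volume 0)
  filter_upwards [h1, ae_restrict_mem measurableSet_Icc] with x hx hx2
  exact lt_of_le_of_ne hx2.1 (Ne.symm hx)

theorem sc_int {δ : ℝ} (hδ : 0 < δ) {q : ℂ} (hq : -1 < q.re) :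
    IntegrableOn (sc δ q) (Set.Icc 0 1) volume := by
  have h1 : IntegrableOn (fun x : ℝ => (δ⁻¹) ^ q.re * x ^ q.re + 1) (Set.Icc 0 1) volume :=
    ((rpow_int hq).const_mul _).add (integrableOn_const (by simp))
  refine h1.mono' (sc_meas δ q).aestronglyMeasurable ?_
  filter_upwards [ae_pos] with x hx
  have h := sc_norm_pow_le hδ q x hx 1
  rw [pow_one] at h
  refine h.trans (le_of_eq ?_)
  rw [Nat.cast_one, one_mul, div_eq_mul_inv, mul_comm x, Real.mul_rpow (by positivity) hx.le]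

/-- square integrable with weight `x ^ κ` -/
def Sq (κ : ℝ) (c : ℝ → ℂ) : Prop := Measurable c ∧
  IntegrableOn (fun x : ℝ => x ^ κ * ‖c x‖ ^ 2) (Set.Icc 0 1) volume

theorem rpow_meas (κ : ℝ) : Measurable (fun x : ℝ => x ^ κ) := measurable_id.pow_const κ

theorem Sq.add {κ : ℝ} {c d : ℝ → ℂ} (hc : Sq κ c) (hd : Sq κ d) : Sq κ (fun x => c x + d x) := by
  refine ⟨hc.1.add hd.1, ?_⟩
  refine ((hc.2.const_mul 2).add (hd.2.const_mul 2)).mono'
    ((rpow_meas κ).mul ((hc.1.add hd.1).norm.pow_const 2)).aestronglyMeasurable ?_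
  filter_upwards [ae_pos] with x hx
  have h1 : 0 ≤ x ^ κ := Real.rpow_nonneg hx.le κ
  rw [Real.norm_of_nonneg (by positivity)]
  have h2 := norm_add_le (c x) (d x)
  have h3 : ‖c x + d x‖ ^ 2 ≤ 2 * ‖c x‖ ^ 2 + 2 * ‖d x‖ ^ 2 := by
    have h4 : ‖c x + d x‖ ^ 2 ≤ (‖c x‖ + ‖d x‖) ^ 2 := pow_le_pow_left₀ (norm_nonneg _) h2 2
    nlinarith [sq_nonneg (‖c x‖ - ‖d x‖)]
  have h5 := mul_le_mul_of_nonneg_left h3 h1
  simp only [Pi.add_apply]
  linarith

theorem Sq.smul {κ : ℝ} {c : ℝ → ℂ} (hc : Sq κ c) (a : ℂ) : Sq κ (fun x => a * c x) := by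
  refine ⟨hc.1.const_mul a, ?_⟩
  refine (hc.2.const_mul (‖a‖ ^ 2)).congr ?_
  refine Filter.Eventually.of_forall (fun x => ?_)
  simp only [norm_mul]
  ring

theorem Sq.const {κ : ℝ} (hκ : -1 < κ) (a : ℂ) : Sq κ (fun _ => a) := by
  refine ⟨measurable_const, ?_⟩
  exact (rpow_int hκ).mul_const _

theorem Sq.sc {κ δ : ℝ} {q : ℂ} (hδ : 0 < δ) (hκ : -1 < κ) (hq : -1 < 2 * q.re + κ) :
    Sq κ (sc δ q) := by
  refine ⟨sc_meas δ q, ?_⟩
  have h1 : IntegrableOn (fun x : ℝ => (δ⁻¹) ^ (2 * q.re) * x ^ (2 * q.re + κ) + x ^ κ)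
      (Set.Icc 0 1) volume := ((rpow_int hq).const_mul _).add (rpow_int hκ)
  refine h1.mono' ((rpow_meas κ).mul ((sc_meas δ q).norm.pow_const 2)).aestronglyMeasurable ?_
  filter_upwards [ae_pos] with x hx
  have h2 : 0 ≤ x ^ κ := Real.rpow_nonneg hx.le κ
  rw [Real.norm_of_nonneg (by positivity)]
  have h := sc_norm_pow_le hδ q x hx 2
  have h3 := mul_le_mul_of_nonneg_left h h2
  refine h3.trans (le_of_eq ?_)
  rw [Nat.cast_ofNat, div_eq_mul_inv, mul_comm x, Real.mul_rpow (by positivity) hx.le,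
    Real.rpow_add hx]
  ring

theorem Sq.mul {κ : ℝ} {c d : ℝ → ℂ} (hc : Sq κ c) (hd : Sq κ d) :
    Measurable (fun x : ℝ => ((x ^ κ : ℝ) : ℂ) * (c x * conj (d x))) ∧
    IntegrableOn (fun x : ℝ => ((x ^ κ : ℝ) : ℂ) * (c x * conj (d x))) (Set.Icc 0 1) volume := by
  have hm : Measurable (fun x : ℝ => ((x ^ κ : ℝ) : ℂ) * (c x * conj (d x))) :=
    (Complex.measurable_ofReal.comp (rpow_meas κ)).mul
      (hc.1.mul (Complex.continuous_conj.measurable.comp hd.1))
  refine ⟨hm, ?_⟩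
  refine (hc.2.add hd.2).mono' hm.aestronglyMeasurable ?_
  filter_upwards [ae_pos] with x hx
  have h1 : 0 ≤ x ^ κ := Real.rpow_nonneg hx.le κ
  rw [norm_mul, norm_mul, RCLike.norm_conj, Complex.norm_real, Real.norm_of_nonneg h1]
  simp only [Pi.add_apply]
  rw [← mul_add]
  refine mul_le_mul_of_nonneg_left ?_ h1
  nlinarith [sq_nonneg (‖c x‖ - ‖d x‖), sq_nonneg (‖c x‖), sq_nonneg (‖d x‖)]

end

end Pool.Agent.P8H87.FM
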