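import Pool.Agent.P8H87.FM.RadA

/-!
# Project FM, package RAD: the adapted basis
-/

set_option autoImplicit false

open Complex Filter Topology MeasureTheory
open scoped ComplexConjugate ENNReal

namespace Pool.Agent.P8H87.FM

open Pool.Agent.P8H98.FM Pool.Agent.R923.SE

noncomputable section

variable {n : ℕ}

/-! ### unitary matrices -/

theorem ns_eq (x : Fin n → ℂ) : ((ns x : ℝ) : ℂ) = dotProduct (star x) x := by
  unfold ns dotProduct
  push_cast
  refine Finset.sum_congr rfl (fun i _ => ?_)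
  rw [Pi.star_apply, RCLike.star_def, Complex.conj_mul']

theorem ns_unitary {U : Matrix (Fin n) (Fin n) ℂ} (h : U.conjTranspose * U = 1) (x : Fin n → ℂ) :
    ns (U.mulVec x) = ns x := by
  have h1 : ((ns (U.mulVec x) : ℝ) : ℂ) = ((ns x : ℝ) : ℂ) := by
    rw [ns_eq, ns_eq, Matrix.star_mulVec, Matrix.dotProduct_mulVec, Matrix.vecMul_vecMul, h,
      Matrix.vecMul_one]
  exact_mod_cast h1

theorem ns_nonneg (x : Fin n → ℂ) : 0 ≤ ns x := by
  unfold ns
  exact Finset.sum_nonneg (fun _ _ => by positivity)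

theorem ns_conj (x : Fin n → ℂ) : ns (fun i => conj (x i)) = ns x := by
  unfold ns
  refine Finset.sum_congr rfl (fun i _ => ?_)
  rw [RCLike.norm_conj]

theorem ns_vecMul {U : Matrix (Fin n) (Fin n) ℂ} (h : U * U.conjTranspose = 1) (e : Fin n → ℂ) :
    ns (fun j => ∑ i, e i * U i j) = ns e := by
  have h1 : (fun j => ∑ i, e i * U i j) = fun j => conj ((U.conjTranspose.mulVec
      (fun i => conj (e i))) j) := by
    funext j
    unfold Matrix.mulVec dotProduct
    rw [map_sum]
    refine Finset.sum_congr rfl (fun i _ => ?_)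
    show e i * U i j = conj (star (U i j) * conj (e i))
    rw [map_mul, Complex.conj_conj, RCLike.star_def, Complex.conj_conj]
    ring
  rw [h1, ns_conj, ns_unitary (by rwa [Matrix.conjTranspose_conjTranspose]), ns_conj]

/-! ### the adapted basis -/

/-- `U` diagonalises all radial symbols -/
def Ad (n : ℕ) (p : Om) (U : Matrix (Fin n) (Fin n) ℂ) : Prop :=
  U.conjTranspose * U = 1 ∧ U * U.conjTranspose = 1 ∧
    ∀ f : ℝ → ℂ, IntegrableOn f (Set.Icc 0 1) volume → Measurable f →
      TT n (fun v => f (d2 v p)) =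
        U * Matrix.diagonal (fun j : Fin n => lam n f j) * U.conjTranspose

theorem exists_Ad (h : S_ONB) (n : ℕ) (p : Om) (hp : nn2 p ≠ 0) : ∃ U, Ad n p U := by
  obtain ⟨U, hU, h2⟩ := h.2.1 n p hp
  refine ⟨U, ?_, ?_, h2⟩
  · have := Matrix.mem_unitaryGroup_iff'.mp hU
    rwa [Matrix.star_eq_conjTranspose] at this
  · have := Matrix.mem_unitaryGroup_iff.mp hU
    rwa [Matrix.star_eq_conjTranspose] at this

/-- coordinates of the coherent state in the adapted basis -/
def zz (U : Matrix (Fin n) (Fin n) ℂ) (v : Om) (j : Fin n) : ℂ := ∑ i, conj (U i j) * ph n v i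

theorem zz_eq (U : Matrix (Fin n) (Fin n) ℂ) (v : Om) :
    zz U v = U.conjTranspose.mulVec (ph n v) := rfl

theorem star1 (hK : S_KER) {p : Om} (hp : nn2 p ≠ 0) {U : Matrix (Fin n) (Fin n) ℂ} (hA : Ad n p U)
    (F : ℝ → ℂ) (hF : IntegrableOn F (Set.Icc 0 1) volume) (hm : Measurable F) (j k : Fin n) :
    Integrable (fun v => F (d2 v p) * (zz U v j * conj (zz U v k))) sg ∧
      ∫ v, F (d2 v p) * (zz U v j * conj (zz U v k)) ∂sg = if j = k then lam n F j else 0 := by
  have hi : Integrable (fun v => F (d2 v p)) sg := (int_iff hK p hp F hm.stronglyMeasurable).mpr hF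
  have e1 : ∀ v, F (d2 v p) * (zz U v j * conj (zz U v k)) =
      ∑ i, ∑ l, (conj (U i j) * U l k) * (F (d2 v p) * (ph n v i * conj (ph n v l))) := by
    intro v
    unfold zz
    rw [map_sum, Finset.sum_mul_sum, Finset.mul_sum]
    refine Finset.sum_congr rfl (fun i _ => ?_)
    rw [Finset.mul_sum]
    refine Finset.sum_congr rfl (fun l _ => ?_)
    rw [map_mul, Complex.conj_conj]
    ring
  have e2 : ∀ i l : Fin n, Integrable (fun v => (conj (U i j) * U l k) *
      (F (d2 v p) * (ph n v i * conj (ph n v l)))) sg :=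
    fun i l => (int_ph2 hK n _ hi i l).const_mul _
  constructor
  · simp only [e1]
    exact integrable_finsetSum _ (fun i _ => integrable_finsetSum _ (fun l _ => e2 i l))
  · simp only [e1]
    rw [integral_finsetSum _ (fun i _ => integrable_finsetSum _ (fun l _ => e2 i l))]
    have e3 : ∀ i ∈ (Finset.univ : Finset (Fin n)), ∫ v, ∑ l, (conj (U i j) * U l k) *
        (F (d2 v p) * (ph n v i * conj (ph n v l))) ∂sg =
        ∑ l, (conj (U i j) * U l k) * TT n (fun v => F (d2 v p)) i l := by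
      intro i _
      rw [integral_finsetSum _ (fun l _ => e2 i l)]
      refine Finset.sum_congr rfl (fun l _ => ?_)
      rw [integral_const_mul]
      rfl
    rw [Finset.sum_congr rfl e3]
    have e4 : (U.conjTranspose * TT n (fun v => F (d2 v p)) * U) j k =
        if j = k then lam n F j else 0 := by
      rw [hA.2.2 F hF hm]
      have e5 : U.conjTranspose * (U * Matrix.diagonal (fun j : Fin n => lam n F j) *
          U.conjTranspose) * U = Matrix.diagonal (fun j : Fin n => lam n F j) := by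
        calc _ = (U.conjTranspose * U) * Matrix.diagonal (fun j : Fin n => lam n F j) *
              (U.conjTranspose * U) := by simp only [Matrix.mul_assoc]
          _ = _ := by rw [hA.1, Matrix.one_mul, Matrix.mul_one]
      rw [e5, Matrix.diagonal_apply]
    rw [← e4, Matrix.mul_apply]
    rw [Finset.sum_comm]
    refine Finset.sum_congr rfl (fun l _ => ?_)
    rw [Matrix.mul_apply, Finset.sum_mul]
    refine Finset.sum_congr rfl (fun i _ => ?_)
    rw [Matrix.conjTranspose_apply, RCLike.star_def]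
    ring

theorem lam_Sq (n : ℕ) (κ : ℝ) (c : ℝ → ℂ) (j : ℕ) :
    lam n (fun x : ℝ => ((x ^ κ : ℝ) : ℂ) * (c x * conj (c x))) j =
      ((lar n (fun x => ‖c x‖ ^ 2 * x ^ κ) j : ℝ) : ℂ) := by
  unfold lam lar
  rw [← intervalIntegral.integral_ofReal]
  refine intervalIntegral.integral_congr (fun x _ => ?_)
  simp only
  rw [Complex.mul_conj']
  push_cast
  ring

theorem d2_nonneg (hK : S_KER) (v w : Om) : 0 ≤ d2 v w := (hK.2.2.2.2.2.2.1 v w).1

theorem star2 (hK : S_KER) {p : Om} (hp : nn2 p ≠ 0) {U : Matrix (Fin n) (Fin n) ℂ} (hA : Ad n p U)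
    {κ : ℝ} (c : Fin n → ℝ → ℂ) (hc : ∀ j, Sq κ (c j)) (f : Fin n → ℂ) :
    Integrable (fun v => d2 v p ^ κ * ‖∑ j, f j * (c j (d2 v p) * zz U v j)‖ ^ 2) sg ∧
      ∫ v, d2 v p ^ κ * ‖∑ j, f j * (c j (d2 v p) * zz U v j)‖ ^ 2 ∂sg =
      ∑ j : Fin n, ‖f j‖ ^ 2 * lar n (fun x => ‖c j x‖ ^ 2 * x ^ κ) j := by
  have hF : ∀ j k, _ := fun j k => Sq.mul (hc j) (hc k)
  have e1 : ∀ v, ((d2 v p ^ κ * ‖∑ j, f j * (c j (d2 v p) * zz U v j)‖ ^ 2 : ℝ) : ℂ) =
      ∑ j, ∑ k, (f j * conj (f k)) * ((((d2 v p) ^ κ : ℝ) : ℂ) *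
        (c j (d2 v p) * conj (c k (d2 v p))) * (zz U v j * conj (zz U v k))) := by
    intro v
    rw [Complex.ofReal_mul, Complex.ofReal_pow, ← Complex.mul_conj', map_sum, Finset.sum_mul_sum,
      Finset.mul_sum]
    refine Finset.sum_congr rfl (fun j _ => ?_)
    rw [Finset.mul_sum]
    refine Finset.sum_congr rfl (fun k _ => ?_)
    rw [map_mul, map_mul]
    ring
  have e2 : ∀ j k : Fin n, Integrable (fun v => (f j * conj (f k)) * ((((d2 v p) ^ κ : ℝ) : ℂ) *
        (c j (d2 v p) * conj (c k (d2 v p))) * (zz U v j * conj (zz U v k)))) sg :=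
    fun j k => (star1 hK hp hA _ (hF j k).2 (hF j k).1 j k).1.const_mul _
  have e3 : Integrable (fun v => ((d2 v p ^ κ * ‖∑ j, f j * (c j (d2 v p) * zz U v j)‖ ^ 2 : ℝ) : ℂ))
      sg := by
    simp only [e1]
    exact integrable_finsetSum _ (fun j _ => integrable_finsetSum _ (fun k _ => e2 j k))
  constructor
  · have h := e3.re
    simpa only [RCLike.re_to_complex, Complex.ofReal_re] using h
  · have e4 : ((∫ v, d2 v p ^ κ * ‖∑ j, f j * (c j (d2 v p) * zz U v j)‖ ^ 2 ∂sg : ℝ) : ℂ) =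
        ((∑ j : Fin n, ‖f j‖ ^ 2 * lar n (fun x => ‖c j x‖ ^ 2 * x ^ κ) j : ℝ) : ℂ) := by
      rw [← integral_complex_ofReal]
      simp only [e1]
      rw [integral_finsetSum _ (fun j _ => integrable_finsetSum _ (fun k _ => e2 j k))]
      push_cast
      refine Finset.sum_congr rfl (fun j _ => ?_)
      rw [integral_finsetSum _ (fun k _ => e2 j k)]
      rw [Finset.sum_eq_single j]
      · rw [integral_const_mul, (star1 hK hp hA _ (hF j j).2 (hF j j).1 j j).2, if_pos rfl,
          lam_Sq, Complex.mul_conj']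
      · intro k _ hk
        rw [integral_const_mul, (star1 hK hp hA _ (hF j k).2 (hF j k).1 j k).2,
          if_neg (Ne.symm hk), mul_zero]
      · intro h
        exact absurd (Finset.mem_univ j) h
    exact_mod_cast e4

/-! ### the inverse -/

theorem TT_inv {U : Matrix (Fin n) (Fin n) ℂ} (h1 : U.conjTranspose * U = 1)
    (h2 : U * U.conjTranspose = 1) (l : Fin n → ℂ) (hl : ∀ j, l j ≠ 0)
    (T : Matrix (Fin n) (Fin n) ℂ) (hT : T = U * Matrix.diagonal l * U.conjTranspose) :
    T.det ≠ 0 ∧ T⁻¹ = U * Matrix.diagonal (fun j => (l j)⁻¹) * U.conjTranspose := by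
  have h3 : T * (U * Matrix.diagonal (fun j => (l j)⁻¹) * U.conjTranspose) = 1 := by
    rw [hT]
    calc _ = U * (Matrix.diagonal l * (U.conjTranspose * U) *
          Matrix.diagonal (fun j => (l j)⁻¹)) * U.conjTranspose := by
            simp only [Matrix.mul_assoc]
      _ = 1 := by
        rw [h1, Matrix.mul_one, Matrix.diagonal_mul_diagonal]
        have h4 : (fun i => l i * (l i)⁻¹) = fun _ => 1 := by
          funext i
          exact mul_inv_cancel₀ (hl i)
        rw [h4, Matrix.diagonal_one, Matrix.mul_one, h2]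
  refine ⟨?_, Matrix.inv_eq_right_inv h3⟩
  intro h
  have h5 := congrArg Matrix.det h3
  rw [Matrix.det_mul, h, zero_mul, Matrix.det_one] at h5
  exact zero_ne_one h5

theorem xf_eq {p : Om} {U : Matrix (Fin n) (Fin n) ℂ} (hA : Ad n p U) (s : ℝ → ℂ)
    (hs : IntegrableOn s (Set.Icc 0 1) volume) (hm : Measurable s) (hl : ∀ j : Fin n, lam n s j ≠ 0)
    (v : Om) (i : Fin n) :
    xf n (fun v => s (d2 v p)) v i =
      ∑ j : Fin n, U i j * ((s (d2 v p) / lam n s j - 1) * zz U v j) := by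
  have h1 := (TT_inv hA.1 hA.2.1 _ hl _ (hA.2.2 s hs hm)).2
  have h2 : ph n v i = ∑ j : Fin n, U i j * zz U v j := by
    have h3 : U.mulVec (zz U v) = ph n v := by
      rw [zz_eq, Matrix.mulVec_mulVec, hA.2.1, Matrix.one_mulVec]
    rw [← h3]
    rfl
  have h4 : ((TT n (fun v => s (d2 v p)))⁻¹.mulVec fun l => s (d2 v p) * ph n v l) i =
      ∑ j : Fin n, U i j * ((s (d2 v p) / lam n s j) * zz U v j) := by
    rw [h1]
    have h5 : (fun l => s (d2 v p) * ph n v l) = s (d2 v p) • ph n v := by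
      funext l
      rw [Pi.smul_apply, smul_eq_mul]
    rw [h5, Matrix.mulVec_smul, ← Matrix.mulVec_mulVec, ← zz_eq, ← Matrix.mulVec_mulVec,
      Pi.smul_apply, smul_eq_mul]
    have h7 : ∀ w : Fin n → ℂ, U.mulVec w i = ∑ j, U i j * w j := fun w => rfl
    rw [h7, Finset.mul_sum]
    refine Finset.sum_congr rfl (fun j _ => ?_)
    rw [Matrix.mulVec_diagonal]
    ring
  unfold xf
  rw [h4, h2, ← Finset.sum_sub_distrib]
  refine Finset.sum_congr rfl (fun j _ => ?_)
  ring

end

end Pool.Agent.P8H87.FM
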